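import Pool.Agent.OSX47.Router

/-! Reversal of strongly connected sets and two-way adjacency, and attachment of one vertex. -/

open Classical

namespace Pool.Agent.OSX47

open Pool.Agent.Mader
open Pool.Agent.MDP (Adj2)
open Pool.Agent.OSX82 (rev)
open Pool.Agent.OrdThm (nb mem_nb)

universe u

variable {V : Type u}

/-- A strongly connected set is strongly connected in the reversed digraph. -/
theorem conn_rev {a : V → V → Prop} {b : Finset V} (h : Conn a b) : Conn (rev a) b := by
  refine ⟨h.1, ?_⟩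
  intro Z hZ hne hneq
  obtain ⟨u, hu, v, hv, hvZ, huv⟩ := h.2 (b \ Z) Finset.sdiff_subset (by
    rw [Finset.nonempty_iff_ne_empty]
    intro he
    rw [Finset.sdiff_eq_empty_iff_subset] at he
    exact hneq (Finset.Subset.antisymm hZ he)) (by
    intro he
    obtain ⟨z, hz⟩ := hne
    have h1 : z ∈ b \ Z := he.symm ▸ hZ hz
    exact (Finset.mem_sdiff.1 h1).2 hz)
  obtain ⟨hu1, hu2⟩ := Finset.mem_sdiff.1 hu
  refine ⟨v, ?_, u, hu1, hu2, huv⟩
  by_contra hc
  exact hvZ (Finset.mem_sdiff.2 ⟨hv, hc⟩)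

/-- Two-way adjacency does not change when the digraph is reversed. -/
theorem adj2_rev {a : V → V → Prop} {b b' : Finset V} (h : Adj2 a b b') :
    Adj2 (rev a) b b' := by
  obtain ⟨h1, ⟨x, hx, y, hy, hxy⟩, ⟨z, hz, w, hw, hzw⟩⟩ := h
  exact ⟨h1, ⟨w, hw, z, hz, hzw⟩, ⟨y, hy, x, hx, hxy⟩⟩

/-- The degrees in the two-way graph of the reversed digraph. -/
theorem deg_rev {a : V → V → Prop} {ℬ : Finset (Finset V)} {b : Finset V} :
    deg (Adj2 a) ℬ b ≤ deg (Adj2 (rev a)) ℬ b := by
  apply Finset.card_le_card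
  intro b' hb'
  obtain ⟨h1, h2⟩ := Finset.mem_filter.1 hb'
  exact Finset.mem_filter.2 ⟨h1, adj2_rev h2⟩

/-- A vertex which is attached through `Om` in the sense of `OrdThm.Att`. -/
theorem attB_of_att {a : V → V → Prop} {Om Z : Finset V} {N : ℕ} {v : V}
    (h : OrdThm.Att a Z N (insert v Om) v) : AttB a Om Z N {v} := by
  intro R hR
  refine (h (R ∪ {v}) ?_ (Finset.mem_union_right _ (Finset.mem_singleton_self v))).trans
    (Finset.card_le_card ?_)
  · intro y hy
    rcases Finset.mem_union.1 hy with h1 | h1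
    · exact Finset.mem_insert_of_mem (hR h1)
    · rw [Finset.mem_singleton.1 h1]
      exact Finset.mem_insert_self _ _
  · intro y hy
    rw [mem_nb] at hy ⊢
    refine ⟨?_, hy.2⟩
    rcases Finset.mem_union.1 hy.1 with h1 | h1
    · rcases Finset.mem_insert.1 h1 with h2 | h2
      · exact absurd (Finset.mem_union_right R (Finset.mem_singleton.2 h2)) hy.2.1
      · exact Finset.mem_union_left _ h2
    · exact Finset.mem_union_right _ h1

/-- Attachment is monotone in the world. -/
theorem AttB.mono_world {a : V → V → Prop} {Om Om' Z b : Finset V} {N : ℕ}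
    (h : AttB a Om Z N b) (hO : Om ⊆ Om') (hd : Disjoint Om' Z) : AttB a Om' Z N b := by
  intro R hR
  refine (h (R ∩ Om) Finset.inter_subset_right).trans (Finset.card_le_card ?_)
  intro y hy
  rw [mem_nb] at hy ⊢
  obtain ⟨h1, h2, u, hu, huy⟩ := hy
  rw [Finset.mem_union, not_or] at h2
  refine ⟨Finset.union_subset_union hO (Finset.Subset.refl Z) h1, ?_, u, ?_, huy⟩
  · rw [Finset.mem_union, not_or]
    refine ⟨fun hyR => ?_, h2.2⟩
    rcases Finset.mem_union.1 h1 with h3 | h3
    · exact h2.1 (Finset.mem_inter.2 ⟨hyR, h3⟩)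
    · exact Finset.disjoint_left.1 hd (hR hyR) h3
  · rcases Finset.mem_union.1 hu with h3 | h3
    · exact Finset.mem_union_left _ (Finset.mem_inter.1 h3).1
    · exact Finset.mem_union_right _ h3

/-- Attachment is monotone in the attached set (outside the world). -/
theorem AttB.mono_set {a : V → V → Prop} {Om Z b b' : Finset V} {N : ℕ}
    (h : AttB a Om Z N b) (hb : b ⊆ b') (hd : Disjoint b' (Om ∪ Z)) : AttB a Om Z N b' := by
  intro R hR
  refine (h R hR).trans (Finset.card_le_card ?_)
  intro y hy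
  rw [mem_nb] at hy ⊢
  obtain ⟨h1, h2, u, hu, huy⟩ := hy
  rw [Finset.mem_union, not_or] at h2
  refine ⟨h1, ?_, u, Finset.union_subset_union (Finset.Subset.refl R) hb hu, huy⟩
  rw [Finset.mem_union, not_or]
  exact ⟨h2.1, fun hy' => Finset.disjoint_left.1 hd hy' h1⟩

end Pool.Agent.OSX47
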