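import Pool.Agent.OSX47.FreeOne
import Pool.Agent.MDP.Extract

/-! The freeing lemma with a weaker linkage hypothesis: only bags which avoid the removed set have
to be linked, and only from one of their vertices. The proof is that of
`Pool.Agent.MDP.Freeing`. -/

open Classical

namespace Pool.Agent.OSX47

open Pool.Agent.Mader
open Pool.Agent.MDP (extract)

universe u

variable {V : Type u}

/-- the number of elements of `C` is at least one half of the number of pairs, if each pair is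
assigned to an element of `C` in one of two ways, both injective -/
private theorem fr_count {P C : Type*} (D : Finset C) (p q : P → C → Prop)
    (hp : ∀ x x' c, p x c → p x' c → x = x') (hq : ∀ x x' c, q x c → q x' c → x = x')
    (Y : Finset P) (h : ∀ x ∈ Y, ∃ c ∈ D, p x c ∨ q x c) : Y.card ≤ 2 * D.card := by
  rcases Y.eq_empty_or_nonempty with rfl | ⟨x0, hx0⟩
  · simp
  obtain ⟨c0, -, -⟩ := h x0 hx0
  have : Nonempty C := ⟨c0⟩
  choose! c hc hpq using h
  have h1 : Y.card ≤ (D ×ˢ (Finset.univ : Finset Bool)).card := by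
    refine Finset.card_le_card_of_injOn (fun x => (c x, decide (p x (c x)))) ?_ ?_
    · intro x hx
      simp only [Finset.coe_product, Set.mem_prod, Finset.mem_coe]
      exact ⟨hc x hx, Finset.mem_univ _⟩
    · intro x hx x' hx' he
      have h2 := congrArg Prod.fst he
      have h3 := congrArg Prod.snd he
      change c x = c x' at h2
      change decide (p x (c x)) = decide (p x' (c x')) at h3
      by_cases h4 : p x (c x)
      · have h5 : p x' (c x') := by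
          have : decide (p x' (c x')) = true := by rw [← h3, decide_eq_true_iff]; exact h4
          exact of_decide_eq_true this
        rw [← h2] at h5
        exact hp _ _ _ h4 h5
      · have h5 : ¬ p x' (c x') := by
          have : decide (p x' (c x')) = false := by rw [← h3, decide_eq_false_iff_not]; exact h4
          exact of_decide_eq_false this
        have h6 := (hpq x hx).resolve_left h4
        have h7 := (hpq x' hx').resolve_left h5
        rw [← h2] at h7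
        exact hq _ _ _ h6 h7
  rw [Finset.card_product, Finset.card_univ, Fintype.card_bool] at h1
  omega

/-- the core of the second Hall argument -/
private theorem fr_hall {a : V → V → Prop} {S : Finset V} {N : ℕ} {ℬ F : Finset (Finset V)}
    (hb : ∀ b ∈ ℬ, Conn a b ∧ b ⊆ S)
    (hdis : ∀ b ∈ ℬ, ∀ b' ∈ ℬ, b ≠ b' → Disjoint b b')
    (hdeg : ∀ b ∈ ℬ, 3 * N ≤ (ℬ.filter (fun b' => b' ≠ b ∧ ∃ x ∈ b', ∃ y ∈ b, a x y)).card)
    {f : Fin N → V} (hfb : ∀ i, ∀ b ∈ ℬ, f i ∉ b) (hF : F ⊆ ℬ) (hFc : F.card ≤ 2 * N)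
    (R : Finset V) (hR : ∀ x, x ∈ R ↔ x ∈ S ∧ (∀ i, f i ≠ x) ∧ ∀ b ∈ ℬ, b ∉ F → x ∉ b)
    (Q : Fin N × Bool → V → Prop) (hQ : ∀ e e' v, Q e v → Q e' v → e = e')
    (β : Fin N × Bool → Finset V) (hβ : Function.Injective β) (hβF : ∀ e, β e ∈ F)
    (hend : ∀ e, ∃ p, Q e p ∧ p ∈ β e)
    (hchain : ∀ e (P : V → Prop), (∀ y, Q e y → a y (f e.1) → P y) →
      (∀ x y, Q e x → P x → Q e y → a y x → P y) → ∀ y, Q e y → P y)
    (hQR : ∀ e y, Q e y → y ∈ R)
    (XA NV : Finset V) (XT : Finset (Fin N)) (NB : Finset (Finset V)) (hXN : XA ⊆ NV)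
    (h1 : ∀ v, (v ∈ XA ∨ ∃ i ∈ XT, v = f i) → ∀ y ∈ R, a y v → y ∈ NV)
    (h2 : ∀ v ∈ XA, ∀ b ∈ ℬ, b ∉ F → (∃ z ∈ b, a z v) → b ∈ NB) :
    XA.card + XT.card ≤ NV.card + NB.card := by
  by_contra hlt
  push Not at hlt
  have hC : (NV \ XA).card + XA.card = NV.card := Finset.card_sdiff_add_card_eq_card hXN
  have hXT : XT.card ≤ N := by
    simpa using Finset.card_le_univ XT
  have key : ∀ e ∈ XT ×ˢ (Finset.univ : Finset Bool), ∃ c ∈ NV \ XA, Q e c ∨ c ∈ β e := by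
    intro e he
    by_contra hno
    push Not at hno
    have hi := (Finset.mem_product.1 he).1
    have hall : ∀ y, Q e y → y ∈ XA := by
      refine hchain e _ ?_ ?_
      · intro y hy hay
        by_contra hyX
        exact (hno y (Finset.mem_sdiff.2
          ⟨h1 _ (Or.inr ⟨_, hi, rfl⟩) y (hQR e y hy) hay, hyX⟩)).1 hy
      · intro x y hx hxX hy hay
        by_contra hyX
        exact (hno y (Finset.mem_sdiff.2 ⟨h1 _ (Or.inl hxX) y (hQR e y hy) hay, hyX⟩)).1 hy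
    obtain ⟨p, hpQ, hpβ⟩ := hend e
    have hβℬ := hF (hβF e)
    have hβR : ∀ u ∈ β e, u ∈ R := by
      intro u hu
      refine (hR u).2 ⟨(hb _ hβℬ).2 hu, ?_, ?_⟩
      · rintro i rfl
        exact hfb i _ hβℬ hu
      · intro b hbℬ hbF hub
        have hne : b ≠ β e := by
          rintro rfl
          exact hbF (hβF e)
        exact Finset.disjoint_left.1 (hdis b hbℬ _ hβℬ hne) hub hu
    have hsub : ∀ u ∈ β e, u ∈ XA := by
      by_contra hns
      push Not at hns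
      obtain ⟨u0, hu0, hu0X⟩ := hns
      obtain ⟨u, hu, v, hv, hvZ, hauv⟩ := (hb _ hβℬ).1.2 ((β e).filter (fun u => u ∉ XA))
        (Finset.filter_subset _ _) ⟨u0, Finset.mem_filter.2 ⟨hu0, hu0X⟩⟩ (by
          intro he
          have : p ∈ (β e).filter (fun u => u ∉ XA) := by rw [he]; exact hpβ
          exact (Finset.mem_filter.1 this).2 (hall p hpQ))
      obtain ⟨huβ, huX⟩ := Finset.mem_filter.1 hu
      have hvX : v ∈ XA := by
        by_contra h
        exact hvZ (Finset.mem_filter.2 ⟨hv, h⟩)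
      exact (hno u (Finset.mem_sdiff.2 ⟨h1 v (Or.inl hvX) u (hβR u huβ) hauv, huX⟩)).2 huβ
    have hdg := hdeg _ hβℬ
    have hNB : (ℬ.filter (fun b' => b' ≠ β e ∧ ∃ x ∈ b', ∃ y ∈ β e, a x y)) \ F ⊆ NB := by
      intro b hb'
      obtain ⟨hb1, hb2⟩ := Finset.mem_sdiff.1 hb'
      obtain ⟨hb3, -, x, hx, y, hy, hxy⟩ := Finset.mem_filter.1 hb1
      exact h2 y (hsub y hy) b hb3 hb2 ⟨x, hx, hxy⟩
    have hc1 := Finset.card_le_card hNB
    have hc2 := Finset.le_card_sdiff F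
      (ℬ.filter (fun b' => b' ≠ β e ∧ ∃ x ∈ b', ∃ y ∈ β e, a x y))
    omega
  have hcount := fr_count (NV \ XA) Q (fun e c => c ∈ β e) hQ (by
    intro e e' c hc hc'
    by_contra hne
    exact Finset.disjoint_left.1 (hdis _ (hF (hβF e)) _ (hF (hβF e')) (fun h => hne (hβ h)))
      hc hc') _ key
  rw [Finset.card_product, Finset.card_univ, Fintype.card_bool] at hcount
  omega

/-- the row vertex -/
private def rowv {R : Finset V} {N : ℕ} (f : Fin N → V) : {x // x ∈ R} ⊕ Fin N → V :=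
  Sum.elim Subtype.val f

/-- the second matching, and the paths -/
private theorem fr_second {a : V → V → Prop} {S : Finset V} {N : ℕ} {ℬ F : Finset (Finset V)}
    (hN : 0 < N) {f : Fin N → V} (hf : Function.Injective f) (hfS : ∀ i, f i ∈ S)
    (hfb : ∀ i, ∀ b ∈ ℬ, f i ∉ b)
    (R : Finset V) (hR : ∀ x, x ∈ R ↔ x ∈ S ∧ (∀ i, f i ≠ x) ∧ ∀ b ∈ ℬ, b ∉ F → x ∉ b)
    (hall : ∀ (XA NV : Finset V) (XT : Finset (Fin N)) (NB : Finset (Finset V)), XA ⊆ NV →
      (∀ v, (v ∈ XA ∨ ∃ i ∈ XT, v = f i) → ∀ y ∈ R, a y v → y ∈ NV) →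
      (∀ v ∈ XA, ∀ b ∈ ℬ, b ∉ F → (∃ z ∈ b, a z v) → b ∈ NB) →
      XA.card + XT.card ≤ NV.card + NB.card) :
    ∃ (B : Fin N → Finset V) (z : Fin N → V) (I : Fin N → Finset V),
      Function.Injective B ∧ (∀ i, B i ∈ ℬ ∧ B i ∉ F ∧ z i ∈ B i) ∧
      (∀ i, I i ⊆ S ∧ f i ∈ I i ∧ ∀ b ∈ ℬ, b ∉ F → Disjoint (I i) b) ∧
      (∀ i j, i ≠ j → Disjoint (I i) (I j)) ∧
      ∀ i, Relation.ReflTransGen (fun x y => a x y ∧ y ∈ I i) (z i) (f i) := by
  have hrow : Function.Injective (rowv (R := R) f) := by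
    rintro (x | i) (y | j) h
    · exact congrArg Sum.inl (Subtype.ext h)
    · exact absurd h.symm (((hR _).1 x.2).2.1 j)
    · exact absurd h (((hR _).1 y.2).2.1 i)
    · exact congrArg Sum.inr (hf h)
  -- the matching
  obtain ⟨h, hinj, hmem⟩ := (Finset.all_card_le_biUnion_card_iff_exists_injective
    (fun r : {x // x ∈ R} ⊕ Fin N =>
      ((Finset.univ.filter (fun y : {x // x ∈ R} => a y.1 (rowv f r) ∨ r = Sum.inl y)).disjSum
        (ℬ.filter (fun b => b ∉ F ∧ ∃ z ∈ b, a z (rowv f r)))))).1 (by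
    intro X
    set NX := X.biUnion (fun r : {x // x ∈ R} ⊕ Fin N =>
      ((Finset.univ.filter (fun y : {x // x ∈ R} => a y.1 (rowv f r) ∨ r = Sum.inl y)).disjSum
        (ℬ.filter (fun b => b ∉ F ∧ ∃ z ∈ b, a z (rowv f r))))) with hNX
    have h1 := hall (X.toLeft.map (Function.Embedding.subtype _))
      (NX.toLeft.map (Function.Embedding.subtype _)) X.toRight NX.toRight ?_ ?_ ?_
    · rw [Finset.card_map, Finset.card_map, Finset.card_toLeft_add_card_toRight,
        Finset.card_toLeft_add_card_toRight] at h1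
      exact h1
    · intro v hv
      obtain ⟨y, hy, rfl⟩ := Finset.mem_map.1 hv
      refine Finset.mem_map.2 ⟨y, ?_, rfl⟩
      rw [Finset.mem_toLeft] at hy ⊢
      rw [hNX, Finset.mem_biUnion]
      refine ⟨_, hy, ?_⟩
      rw [Finset.inl_mem_disjSum, Finset.mem_filter]
      exact ⟨Finset.mem_univ _, Or.inr rfl⟩
    · intro v hv y hy hay
      refine Finset.mem_map.2 ⟨⟨y, hy⟩, ?_, rfl⟩
      rw [Finset.mem_toLeft, hNX, Finset.mem_biUnion]
      rcases hv with hv | ⟨i, hi, rfl⟩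
      · obtain ⟨x, hx, rfl⟩ := Finset.mem_map.1 hv
        rw [Finset.mem_toLeft] at hx
        refine ⟨_, hx, ?_⟩
        rw [Finset.inl_mem_disjSum, Finset.mem_filter]
        exact ⟨Finset.mem_univ _, Or.inl hay⟩
      · rw [Finset.mem_toRight] at hi
        refine ⟨_, hi, ?_⟩
        rw [Finset.inl_mem_disjSum, Finset.mem_filter]
        exact ⟨Finset.mem_univ _, Or.inl hay⟩
    · intro v hv b hb hbF hz
      rw [Finset.mem_toRight, hNX, Finset.mem_biUnion]
      obtain ⟨x, hx, rfl⟩ := Finset.mem_map.1 hv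
      rw [Finset.mem_toLeft] at hx
      refine ⟨_, hx, ?_⟩
      rw [Finset.inr_mem_disjSum, Finset.mem_filter]
      exact ⟨hb, hbF, hz⟩)
  have hl : ∀ r y, h r = Sum.inl y → a y.1 (rowv f r) ∨ r = Sum.inl y := by
    intro r y hy
    have h1 := hmem r
    rw [hy, Finset.inl_mem_disjSum, Finset.mem_filter] at h1
    exact h1.2
  have hr : ∀ r b, h r = Sum.inr b → b ∈ ℬ ∧ b ∉ F ∧ ∃ z ∈ b, a z (rowv f r) := by
    intro r b hy
    have h1 := hmem r
    rw [hy, Finset.inr_mem_disjSum, Finset.mem_filter] at h1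
    exact h1
  clear hmem hall
  -- the orbits
  set g : {x // x ∈ R} ⊕ ULift.{u} (Fin N) → ({x // x ∈ R} ⊕ ULift.{u} (Fin N)) ⊕ Finset V :=
    fun r => Sum.map Sum.inl id (h (Sum.map id ULift.down r)) with hgdef
  have hdown : Function.Injective (Sum.map id ULift.down :
      {x // x ∈ R} ⊕ ULift.{u} (Fin N) → {x // x ∈ R} ⊕ Fin N) :=
    Sum.map_injective.2 ⟨Function.injective_id, ULift.down_injective⟩
  have hginj : Function.Injective g := by
    intro y y' hy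
    have h1 : Function.Injective (Sum.map (Sum.inl : {x // x ∈ R} →
        {x // x ∈ R} ⊕ ULift.{u} (Fin N)) (id : Finset V → _)) :=
      Sum.map_injective.2 ⟨Sum.inl_injective, Function.injective_id⟩
    exact hdown (hinj (h1 hy))
  obtain ⟨l, β, hlβ, hβ, horb⟩ := extract g hginj (Set.range Sum.inr) (by
    rintro _ ⟨e, rfl⟩ y hy
    rw [hgdef] at hy
    change Sum.map Sum.inl id (h (Sum.map id ULift.down y)) = _ at hy
    cases hgy : h (Sum.map id ULift.down y) with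
    | inl z => rw [hgy] at hy; simp at hy
    | inr z => rw [hgy] at hy; simp at hy) ⟨_, ⟨⟨0, hN⟩⟩, rfl⟩
  have hgl : ∀ r y, g r = Sum.inl y → ∃ x, y = Sum.inl x ∧
      (a x.1 (rowv f (Sum.map id ULift.down r)) ∨ r = Sum.inl x) := by
    intro r y hy
    change Sum.map Sum.inl id (h (Sum.map id ULift.down r)) = _ at hy
    cases hgy : h (Sum.map id ULift.down r) with
    | inl z =>
      rw [hgy] at hy
      refine ⟨z, (Sum.inl.inj hy).symm, ?_⟩
      refine (hl _ _ hgy).imp id fun h2 => ?_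
      exact hdown h2
    | inr z => rw [hgy] at hy; simp at hy
  have hgr : ∀ r b, g r = Sum.inr b → h (Sum.map id ULift.down r) = Sum.inr b := by
    intro r b hy
    change Sum.map Sum.inl id (h (Sum.map id ULift.down r)) = _ at hy
    cases hgy : h (Sum.map id ULift.down r) with
    | inl z => rw [hgy] at hy; simp at hy
    | inr z => rw [hgy] at hy; exact congrArg Sum.inr (Sum.inr.inj hy)
  have hend : ∀ i : Fin N, β (Sum.inr ⟨i⟩) ∈ ℬ ∧ β (Sum.inr ⟨i⟩) ∉ F ∧
      ∃ z ∈ β (Sum.inr ⟨i⟩), a z (rowv f (Sum.map id ULift.down (l (Sum.inr ⟨i⟩)))) :=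
    fun i => hr _ _ (hgr _ _ (hlβ _ ⟨_, rfl⟩).2)
  choose z hz haz using fun i => (hend i).2.2
  have hmemI : ∀ (i : Fin N) (r : {x // x ∈ R} ⊕ ULift.{u} (Fin N)),
      Relation.ReflTransGen (fun y z => g y = Sum.inl z) (Sum.inr ⟨i⟩) r →
      rowv f (Sum.map id ULift.down r) ∈ S.filter (fun v => ∃ r,
        Relation.ReflTransGen (fun y z => g y = Sum.inl z) (Sum.inr ⟨i⟩) r ∧
          rowv f (Sum.map id ULift.down r) = v) := by
    intro i r hr'
    refine Finset.mem_filter.2 ⟨?_, r, hr', rfl⟩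
    rcases r with x | j
    · exact ((hR _).1 x.2).1
    · exact hfS _
  refine ⟨fun i => β (Sum.inr ⟨i⟩), z, fun i => S.filter (fun v => ∃ r,
      Relation.ReflTransGen (fun y z => g y = Sum.inl z) (Sum.inr ⟨i⟩) r ∧
      rowv f (Sum.map id ULift.down r) = v), ?_, ?_, ?_, ?_, ?_⟩
  · intro i j hij
    have h1 := hβ ⟨_, rfl⟩ ⟨_, rfl⟩ hij
    exact congrArg ULift.down (Sum.inr.inj h1)
  · exact fun i => ⟨(hend i).1, (hend i).2.1, hz i⟩
  · intro i
    refine ⟨Finset.filter_subset _ _, hmemI i _ Relation.ReflTransGen.refl, ?_⟩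
    intro b hb hbF
    rw [Finset.disjoint_left]
    intro v hv hvb
    obtain ⟨-, r, -, rfl⟩ := Finset.mem_filter.1 hv
    rcases r with x | j
    · exact ((hR _).1 x.2).2.2 b hb hbF hvb
    · exact hfb _ b hb hvb
  · intro i j hij
    rw [Finset.disjoint_left]
    intro v hv hv'
    obtain ⟨-, r, hr1, rfl⟩ := Finset.mem_filter.1 hv
    obtain ⟨-, r', hr2, hr3⟩ := Finset.mem_filter.1 hv'
    have h1 := hdown (hrow hr3)
    subst h1
    have h2 := horb _ ⟨_, rfl⟩ _ ⟨_, rfl⟩ _ hr1 hr2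
    exact hij (congrArg ULift.down (Sum.inr.inj h2))
  · intro i
    have hchain : ∀ r, Relation.ReflTransGen (fun y z => g y = Sum.inl z) (Sum.inr ⟨i⟩) r →
        Relation.ReflTransGen (fun x y => a x y ∧ y ∈ S.filter (fun v => ∃ r,
          Relation.ReflTransGen (fun y z => g y = Sum.inl z) (Sum.inr ⟨i⟩) r ∧
          rowv f (Sum.map id ULift.down r) = v)) (rowv f (Sum.map id ULift.down r)) (f i) := by
      intro r hr'
      induction hr' with
      | refl => exact Relation.ReflTransGen.refl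
      | tail h1 h2 ih =>
        rename_i r1 r2
        obtain ⟨x, rfl, h3 | rfl⟩ := hgl _ _ h2
        · exact Relation.ReflTransGen.head ⟨h3, hmemI i _ h1⟩ ih
        · exact ih
    have h1 := (hlβ (Sum.inr ⟨i⟩) ⟨_, rfl⟩).1
    exact Relation.ReflTransGen.head ⟨haz i, hmemI i _ h1⟩ (hchain _ h1)

/-- The freeing lemma, as `MDP.freeing`, with the weaker linkage hypothesis. -/
theorem freeing {a : V → V → Prop} {S : Finset V} {N : ℕ} {ℬ : Finset (Finset V)}
    (hne : ℬ.Nonempty) (hb : ∀ b ∈ ℬ, Conn a b ∧ b ⊆ S)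
    (hdis : ∀ b ∈ ℬ, ∀ b' ∈ ℬ, b ≠ b' → Disjoint b b')
    (hdeg : ∀ b ∈ ℬ, 3 * N ≤ (ℬ.filter (fun b' => b' ≠ b ∧ ∃ x ∈ b', ∃ y ∈ b, a x y)).card)
    {f : Fin N → V} (hf : Function.Injective f) (hfS : ∀ i, f i ∈ S)
    (hfb : ∀ i, ∀ b ∈ ℬ, f i ∉ b)
    (hlink : ∀ C : Finset V, C.card ≤ 3 * N → ∀ b ∈ ℬ, Disjoint b C → ∀ i, f i ∉ C → ∃ z ∈ b,
      Relation.ReflTransGen (fun x y => a x y ∧ y ∈ S ∧ y ∉ C) z (f i)) :
    ∃ F ⊆ ℬ, F.card ≤ 2 * N ∧ ∃ (B : Fin N → Finset V) (z : Fin N → V) (I : Fin N → Finset V),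
      Function.Injective B ∧ (∀ i, B i ∈ ℬ ∧ B i ∉ F ∧ z i ∈ B i) ∧
      (∀ i, I i ⊆ S ∧ f i ∈ I i ∧ ∀ b ∈ ℬ, b ∉ F → Disjoint (I i) b) ∧
      (∀ i j, i ≠ j → Disjoint (I i) (I j)) ∧
      ∀ i, Relation.ReflTransGen (fun x y => a x y ∧ y ∈ I i) (z i) (f i) := by
  rcases Nat.eq_zero_or_pos N with rfl | hN
  · refine ⟨∅, Finset.empty_subset _, by simp, fun i => i.elim0, fun i => i.elim0,
      fun i => i.elim0, fun i => i.elim0, fun i => i.elim0, fun i => i.elim0,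
      fun i => i.elim0, fun i => i.elim0⟩
  have hcard3 : 3 * N ≤ ℬ.card := by
    obtain ⟨b, hb'⟩ := hne
    exact (hdeg b hb').trans (Finset.card_filter_le _ _)
  obtain ⟨g, hg, hg1, hg2, hg3, hg4, hg5, hg6⟩ := freeing_one (a := a)
    (fun b h => ⟨(hb b h).1.1, (hb b h).2⟩) hdis (by omega) hf hfS hfb hlink
  -- the freed bags
  set F : Finset (Finset V) := ℬ.filter fun b => ∃ (h : b ∈ ℬ) (x : _),
    g (Sum.inl x) = Sum.inr ⟨b, h⟩ with hF
  have hFs : F ⊆ ℬ := Finset.filter_subset _ _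
  have hFcard : F.card ≤ 2 * N := by
    refine le_trans ?_ hg6
    have h1 : F ⊆ (Finset.univ.filter (fun b : {b // b ∈ ℬ} =>
        ∃ x', g (Sum.inl x') = Sum.inr b)).image Subtype.val := by
      intro b hbF
      obtain ⟨h, h', x, hx⟩ := Finset.mem_filter.1 hbF
      exact Finset.mem_image.2 ⟨⟨b, h'⟩, Finset.mem_filter.2 ⟨Finset.mem_univ _, x, hx⟩, rfl⟩
    exact (Finset.card_le_card h1).trans Finset.card_image_le
  -- the orbits of the copies
  set G : {x // x ∈ S ∧ ∀ i, f i ≠ x} ⊕ ULift.{u} (Fin N × Bool) →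
      ({x // x ∈ S ∧ ∀ i, f i ≠ x} ⊕ ULift.{u} (Fin N × Bool)) ⊕ {b // b ∈ ℬ} :=
    fun y => Sum.map Sum.inl id (g (Sum.map id ULift.down y)) with hGdef
  have hG : Function.Injective G := by
    intro y y' h
    have h1 : Function.Injective (Sum.map (Sum.inl : {x // x ∈ S ∧ ∀ i, f i ≠ x} →
        {x // x ∈ S ∧ ∀ i, f i ≠ x} ⊕ ULift.{u} (Fin N × Bool)) (id : {b // b ∈ ℬ} → _)) :=
      Sum.map_injective.2 ⟨Sum.inl_injective, Function.injective_id⟩
    have h2 := hg (h1 h)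
    exact (Sum.map_injective.2 ⟨Function.injective_id, ULift.down_injective⟩) h2
  obtain ⟨l, β, hl, hβ, horb⟩ := by
    have : Finite {x // x ∈ S ∧ ∀ i, f i ≠ x} :=
      Finite.of_injective (fun x => (⟨x.1, x.2.1⟩ : {x // x ∈ S}))
        fun x y h => Subtype.ext (congrArg (fun z : {x // x ∈ S} => z.1) h)
    have := Fintype.ofFinite {x // x ∈ S ∧ ∀ i, f i ≠ x}
    exact extract G hG (Set.range Sum.inr) (by
        rintro _ ⟨e, rfl⟩ y h
        change Sum.map Sum.inl id (g (Sum.map id ULift.down y)) = _ at h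
        cases hgy : g (Sum.map id ULift.down y) with
        | inl z => rw [hgy] at h; simp at h
        | inr z => rw [hgy] at h; simp at h) ⟨_, ⟨(⟨0, hN⟩, true)⟩, rfl⟩
  -- one step of the orbit
  have hGl : ∀ r y, G r = Sum.inl y → ∃ x, y = Sum.inl x ∧
      g (Sum.map id ULift.down r) = Sum.inl x := by
    intro r y hy
    change Sum.map Sum.inl id (g (Sum.map id ULift.down r)) = _ at hy
    cases hgy : g (Sum.map id ULift.down r) with
    | inl z =>
      rw [hgy] at hy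
      exact ⟨z, (Sum.inl.inj hy).symm, rfl⟩
    | inr z => rw [hgy] at hy; simp at hy
  have hGr : ∀ r b, G r = Sum.inr b → g (Sum.map id ULift.down r) = Sum.inr b := by
    intro r b hy
    change Sum.map Sum.inl id (g (Sum.map id ULift.down r)) = _ at hy
    cases hgy : g (Sum.map id ULift.down r) with
    | inl z => rw [hgy] at hy; simp at hy
    | inr z => rw [hgy] at hy; exact congrArg Sum.inr (Sum.inr.inj hy)
  -- induction along the orbits
  have hind : ∀ (e : Fin N × Bool) (P : V → Prop),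
      (∀ y : {x // x ∈ S ∧ ∀ i, f i ≠ x},
        Relation.ReflTransGen (fun y z => G y = Sum.inl z) (Sum.inr ⟨e⟩) (Sum.inl y) →
        g (Sum.inr e) = Sum.inl y → P y.1) →
      (∀ x y : {x // x ∈ S ∧ ∀ i, f i ≠ x},
        Relation.ReflTransGen (fun y z => G y = Sum.inl z) (Sum.inr ⟨e⟩) (Sum.inl x) → P x.1 →
        Relation.ReflTransGen (fun y z => G y = Sum.inl z) (Sum.inr ⟨e⟩) (Sum.inl y) →
        g (Sum.inl x) = Sum.inl y → P y.1) →
      ∀ r, Relation.ReflTransGen (fun y z => G y = Sum.inl z) (Sum.inr ⟨e⟩) r →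
        r = Sum.inr ⟨e⟩ ∨ ∃ x, r = Sum.inl x ∧ P x.1 := by
    intro e P hP1 hP2 r hr'
    induction hr' with
    | refl => exact Or.inl rfl
    | tail h1 h2 ih =>
      rename_i r1 r2
      obtain ⟨y, rfl, h3⟩ := hGl _ _ h2
      refine Or.inr ⟨y, rfl, ?_⟩
      rcases ih with rfl | ⟨x, rfl, hx⟩
      · exact hP1 y (h1.tail h2) h3
      · exact hP2 x y h1 hx (h1.tail h2) h3
  -- vertices of the orbits are not idle
  have hidle : ∀ (e : Fin N × Bool) (y : {x // x ∈ S ∧ ∀ i, f i ≠ x}),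
      Relation.ReflTransGen (fun y z => G y = Sum.inl z) (Sum.inr ⟨e⟩) (Sum.inl y) →
      g (Sum.inl y) ≠ Sum.inl y := by
    intro e y hy
    have h1 := hind e (fun v => ∀ hv : v ∈ S ∧ ∀ i, f i ≠ v,
      g (Sum.inl ⟨v, hv⟩) ≠ Sum.inl ⟨v, hv⟩) ?_ ?_ _ hy
    · rcases h1 with h1 | ⟨x, hx, h1⟩
      · simp at h1
      · have := Sum.inl.inj hx
        subst this
        exact h1 y.2
    · intro y _ h1 hv h2
      have h3 := hg (h1.trans h2.symm)
      simp at h3
    · intro x y _ hx _ h1 hv h2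
      have h3 := hg (h1.trans h2.symm)
      have h4 := Sum.inl.inj h3
      subst h4
      exact hx hv h2
  obtain ⟨R, hR⟩ : ∃ R : Finset V, ∀ x, x ∈ R ↔ x ∈ S ∧ (∀ i, f i ≠ x) ∧
      ∀ b ∈ ℬ, b ∉ F → x ∉ b :=
    ⟨S.filter (fun x => (∀ i, f i ≠ x) ∧ ∀ b ∈ ℬ, b ∉ F → x ∉ b), fun x => by
      rw [Finset.mem_filter]⟩
  -- the last vertex of the orbit
  have hlast : ∀ e : Fin N × Bool, ∃ p, l (Sum.inr ⟨e⟩) = Sum.inl p ∧
      g (Sum.inl p) = Sum.inr (β (Sum.inr ⟨e⟩)) := by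
    intro e
    have h1 := hGr _ _ (hl _ ⟨⟨e⟩, rfl⟩).2
    cases hle : l (Sum.inr ⟨e⟩) with
    | inl p =>
      rw [hle] at h1
      exact ⟨p, rfl, h1⟩
    | inr e' =>
      rw [hle] at h1
      exact absurd h1 (hg4 _ _)
  have hres := fr_second (a := a) hN hf hfS hfb R hR
    (fun XA NV XT NB hXN h1 h2 => fr_hall hb hdis hdeg hfb hFs hFcard R hR
      (fun e v => ∃ y : {x // x ∈ S ∧ ∀ i, f i ≠ x},
        Relation.ReflTransGen (fun y z => G y = Sum.inl z) (Sum.inr ⟨e⟩) (Sum.inl y) ∧ y.1 = v)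
      ?_ (fun e => (β (Sum.inr ⟨e⟩)).1) ?_ ?_ ?_ ?_ ?_ XA NV XT NB hXN h1 h2)
  · obtain ⟨B, z, I, h1⟩ := hres
    exact ⟨F, hFs, hFcard, B, z, I, h1⟩
  · rintro e e' v ⟨y, hy, rfl⟩ ⟨y', hy', hyy⟩
    have h3 := Subtype.ext hyy
    subst h3
    have h2 := horb _ ⟨_, rfl⟩ _ ⟨_, rfl⟩ _ hy hy'
    exact congrArg ULift.down (Sum.inr.inj h2)
  · intro e e' hee
    have h3 := hβ ⟨_, rfl⟩ ⟨_, rfl⟩ (Subtype.ext hee)
    exact congrArg ULift.down (Sum.inr.inj h3)
  · intro e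
    obtain ⟨p, -, hp⟩ := hlast e
    exact Finset.mem_filter.2 ⟨(β (Sum.inr ⟨e⟩)).2, (β (Sum.inr ⟨e⟩)).2, p, hp⟩
  · intro e
    obtain ⟨p, hlp, hp⟩ := hlast e
    have h3 := (hl (Sum.inr ⟨e⟩) ⟨_, rfl⟩).1
    rw [hlp] at h3
    exact ⟨p.1, ⟨p, h3, rfl⟩, hg2 _ _ hp⟩
  · rintro e P hP1 hP2 _ ⟨y, hy, rfl⟩
    have h3 := hind e P ?_ ?_ _ hy
    · rcases h3 with h3 | ⟨x, hx, h3⟩
      · simp at h3
      · have := Sum.inl.inj hx
        subst this
        exact h3
    · intro y hy hgy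
      exact hP1 y.1 ⟨y, hy, rfl⟩ (hg3 _ _ hgy)
    · intro x y hx hPx hy hgy
      rcases hg1 _ _ hgy with rfl | h4
      · exact hPx
      · exact hP2 x.1 y.1 ⟨x, hx, rfl⟩ hPx ⟨y, hy, rfl⟩ h4
  · rintro e _ ⟨y, hy, rfl⟩
    refine (hR _).2 ⟨y.2.1, y.2.2, ?_⟩
    intro b hbℬ hbF hyb
    obtain ⟨x', hx'⟩ := hg5 y ⟨b, hbℬ⟩ hyb (hidle e y hy)
    exact hbF (Finset.mem_filter.2 ⟨hbℬ, hbℬ, x', hx'⟩)

end Pool.Agent.OSX47
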