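import Pool.Agent.OSX82.Core

/-! A linkage from given vertices to given bags through a world `Om` with junk `Z`, for sources
and bags which are attached to `Z` through `Om`. -/

open Classical

namespace Pool.Agent.OSX47

open Pool.Agent.MDP (Lk lk_of_succ)
open Pool.Agent.OrdThm (nb mem_nb)
open Pool.Agent.OSX82 (rev)

universe u

variable {V : Type u}

/-- `b` is attached to `Z` with order `N` through `Om`: every set which consists of `b` and of
vertices of `Om` has at least `N` out-neighbours in `Om ∪ Z`. -/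
def AttB (a : V → V → Prop) (Om Z : Finset V) (N : ℕ) (b : Finset V) : Prop :=
  ∀ R ⊆ Om, N ≤ (nb a (Om ∪ Z) (R ∪ b)).card

/-- Sources `s i` (not necessarily different) which are attached from themselves, and disjoint
bags `B j` which are attached to themselves: there are disjoint walks from the sources to
different bags through `Om ∪ Z`.

Proof. Hall's theorem for the rows `R ⊕ Fin M` (`R = Om ∪ Z`, and the sources) and the columns
`R ⊕ Fin M` (and the bags), then `lk_of_succ`. Let `A` be a set of rows with fewer than `|A|`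
columns `B'`, `A1` its part in `R`, `B1` the columns in `R`; `A1 ⊆ B1` since a vertex of `R` may be
idle. With `C = B1 \ A1`, `|C| + |bags in B'| < |sources in A| ≤ M`. The attachment of a source
in `A` gives `N ≤ |C| + |A1 ∩ Z|`, that of a bag not in `B'` gives `N ≤ |C| + |Z \ B1|`. The sum
is `≤ 2 * (M - 1) + |Z|`. -/
theorem link_bags {a : V → V → Prop} {Om Z : Finset V} {M N : ℕ}
    (hZ : Z.card + 2 * M ≤ 2 * N + 1) {s : Fin M → V} {B : Fin M → Finset V}
    (hB : ∀ j, (B j).Nonempty) (hBd : ∀ j, Disjoint (B j) (Om ∪ Z))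
    (hBB : ∀ i j, i ≠ j → Disjoint (B i) (B j))
    (hout : ∀ i, AttB a Om Z N {s i}) (hin : ∀ j, AttB (rev a) Om Z N (B j)) :
    ∃ (π : Equiv.Perm (Fin M)) (I : Fin M → Finset V), (∀ i, I i ⊆ Om ∪ Z) ∧
      (∀ i j, i ≠ j → Disjoint (I i) (I j)) ∧
      ∀ i, ∃ z ∈ B (π i), Relation.ReflTransGen
        (fun x y => a x y ∧ (y ∈ I i ∨ y ∈ B (π i))) (s i) z := by
  choose t ht using hB
  set R : Finset V := Om ∪ Z with hR
  have htR : ∀ j, t j ∉ R := fun j h => Finset.disjoint_left.1 (hBd j) (ht j) h
  have htinj : Function.Injective t := by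
    intro i j hij
    by_contra hne
    exact Finset.disjoint_left.1 (hBB i j hne) (ht i) (hij ▸ ht j)
  let a' : V → V → Prop := fun x y => a x y ∨ ∃ j, y = t j ∧ ∃ z ∈ B j, a x z
  let ok : {x // x ∈ R} ⊕ Fin M → {x // x ∈ R} ⊕ Fin M → Prop := fun p q =>
    match p, q with
    | Sum.inl x, Sum.inl y => x = y ∨ a x.1 y.1
    | Sum.inl x, Sum.inr j => ∃ z ∈ B j, a x.1 z
    | Sum.inr i, Sum.inl y => a (s i) y.1
    | Sum.inr i, Sum.inr j => ∃ z ∈ B j, a (s i) z
  let col : {x // x ∈ R} ⊕ Fin M → Finset ({x // x ∈ R} ⊕ Fin M) := fun p =>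
    Finset.univ.filter (fun q => ok p q)
  have hall : ∀ A : Finset ({x // x ∈ R} ⊕ Fin M), A.card ≤ (A.biUnion col).card := by
    intro A
    by_contra hA
    push Not at hA
    have memB : ∀ q, q ∈ A.biUnion col ↔ ∃ p ∈ A, ok p q := by
      intro q
      simp [col]
    generalize A.biUnion col = B' at hA memB
    have c1 : A.toLeft.card + A.toRight.card = A.card := Finset.card_toLeft_add_card_toRight
    have c2 : B'.toLeft.card + B'.toRight.card = B'.card := Finset.card_toLeft_add_card_toRight
    have hAB : A.toLeft ⊆ B'.toLeft := by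
      intro x hx
      rw [Finset.mem_toLeft] at hx ⊢
      exact (memB _).2 ⟨_, hx, Or.inl rfl⟩
    have c3 : (B'.toLeft \ A.toLeft).card + A.toLeft.card = B'.toLeft.card :=
      Finset.card_sdiff_add_card_eq_card hAB
    have c4 : A.toRight.card ≤ M := by
      have := Finset.card_le_univ A.toRight
      rwa [Fintype.card_fin] at this
    have c5 : B'.toRight.card < M := by omega
    -- a source and a target
    obtain ⟨i, hi⟩ : A.toRight.Nonempty := by
      rw [← Finset.card_pos]
      omega
    obtain ⟨j, hj⟩ : ∃ j : Fin M, j ∉ B'.toRight := by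
      by_contra hc
      push Not at hc
      have h1 : (Finset.univ : Finset (Fin M)) ⊆ B'.toRight := fun j _ => hc j
      have h2 := Finset.card_le_card h1
      rw [Finset.card_univ, Fintype.card_fin] at h2
      omega
    rw [Finset.mem_toRight] at hi hj
    -- images in `V`
    set A1 : Finset V := A.toLeft.image Subtype.val with hA1
    set B1 : Finset V := B'.toLeft.image Subtype.val with hB1
    have hA1m : ∀ v, v ∈ A1 ↔ ∃ h : v ∈ R, Sum.inl ⟨v, h⟩ ∈ A := by
      intro v
      rw [hA1, Finset.mem_image]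
      constructor
      · rintro ⟨x, hx, rfl⟩
        exact ⟨x.2, Finset.mem_toLeft.1 hx⟩
      · rintro ⟨h, h'⟩
        exact ⟨⟨v, h⟩, Finset.mem_toLeft.2 h', rfl⟩
    have hB1m : ∀ v, v ∈ B1 ↔ ∃ h : v ∈ R, Sum.inl ⟨v, h⟩ ∈ B' := by
      intro v
      rw [hB1, Finset.mem_image]
      constructor
      · rintro ⟨x, hx, rfl⟩
        exact ⟨x.2, Finset.mem_toLeft.1 hx⟩
      · rintro ⟨h, h'⟩
        exact ⟨⟨v, h⟩, Finset.mem_toLeft.2 h', rfl⟩
    have hA1B1 : A1 ⊆ B1 := Finset.image_subset_image hAB
    have hC : (B1 \ A1).card = (B'.toLeft \ A.toLeft).card := by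
      rw [hB1, hA1, ← Finset.image_sdiff _ _ Subtype.val_injective,
        Finset.card_image_of_injective _ Subtype.val_injective]
    have hCN : (B1 \ A1).card < M := by
      rw [hC]
      omega
    -- the source
    have e1 : N ≤ (B1 \ A1).card + (A1 ∩ Z).card := by
      have h1 := hout i (A1 \ Z) (by
        intro v hv
        obtain ⟨hv1, hv2⟩ := Finset.mem_sdiff.1 hv
        obtain ⟨hvR, -⟩ := (hA1m v).1 hv1
        exact (Finset.mem_union.1 hvR).resolve_right hv2)
      refine h1.trans ((Finset.card_le_card ?_).trans (Finset.card_union_le _ _))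
      intro y hy
      rw [mem_nb] at hy
      obtain ⟨hyR, hy2, z, hz, hzy⟩ := hy
      rw [Finset.mem_union, not_or] at hy2
      have hyB : y ∈ B1 := by
        rw [hB1m]
        refine ⟨hyR, (memB _).2 ?_⟩
        rcases Finset.mem_union.1 hz with h2 | h2
        · obtain ⟨hzR, hzA⟩ := (hA1m z).1 (Finset.mem_sdiff.1 h2).1
          exact ⟨_, hzA, Or.inr hzy⟩
        · refine ⟨Sum.inr i, hi, ?_⟩
          change a (s i) y
          rw [← Finset.mem_singleton.1 h2]
          exact hzy
      rw [Finset.mem_union, Finset.mem_sdiff, Finset.mem_inter]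
      by_cases hyA : y ∈ A1
      · right
        refine ⟨hyA, ?_⟩
        by_contra hyZ
        exact hy2.1 (Finset.mem_sdiff.2 ⟨hyA, hyZ⟩)
      · exact Or.inl ⟨hyB, hyA⟩
    -- the target
    have e2 : N ≤ (B1 \ A1).card + (Z \ B1).card := by
      have h1 := hin j ((R \ B1) \ Z) (by
        intro v hv
        obtain ⟨hv1, hv2⟩ := Finset.mem_sdiff.1 hv
        obtain ⟨hvR, -⟩ := Finset.mem_sdiff.1 hv1
        exact (Finset.mem_union.1 hvR).resolve_right hv2)
      refine h1.trans ((Finset.card_le_card ?_).trans (Finset.card_union_le _ _))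
      intro y hy
      rw [mem_nb] at hy
      obtain ⟨hyR, hy2, z, hz, hzy⟩ := hy
      rw [Finset.mem_union, not_or] at hy2
      have hyA : y ∉ A1 := by
        intro hyA
        obtain ⟨hyR', hyA'⟩ := (hA1m y).1 hyA
        rcases Finset.mem_union.1 hz with h2 | h2
        · obtain ⟨hz1, hz2⟩ := Finset.mem_sdiff.1 h2
          obtain ⟨hzR, hzB⟩ := Finset.mem_sdiff.1 hz1
          exact hzB ((hB1m z).2 ⟨hzR, (memB _).2 ⟨_, hyA', Or.inr hzy⟩⟩)
        · apply hj
          refine (memB _).2 ⟨_, hyA', ?_⟩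
          exact ⟨z, h2, hzy⟩
      rw [Finset.mem_union, Finset.mem_sdiff, Finset.mem_sdiff]
      by_cases hyB : y ∈ B1
      · exact Or.inl ⟨hyB, hyA⟩
      · right
        refine ⟨?_, hyB⟩
        by_contra hyZ
        exact hy2.1 (Finset.mem_sdiff.2 ⟨Finset.mem_sdiff.2 ⟨hyR, hyB⟩, hyZ⟩)
    have e3 : (A1 ∩ Z).card + (Z \ B1).card ≤ Z.card := by
      rw [← Finset.card_union_of_disjoint]
      · apply Finset.card_le_card
        exact Finset.union_subset Finset.inter_subset_right Finset.sdiff_subset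
      · rw [Finset.disjoint_left]
        intro y hy hy'
        exact (Finset.mem_sdiff.1 hy').2 (hA1B1 (Finset.mem_inter.1 hy).1)
    omega
  obtain ⟨f, hf, hfc⟩ := (Finset.all_card_le_biUnion_card_iff_exists_injective col).1 hall
  have hok : ∀ p, ok p (f p) := fun p => (Finset.mem_filter.1 (hfc p)).2
  have hlk : Lk a' R s t := by
    refine lk_of_succ f hf ?_ ?_ ?_ ?_
    · intro x y h
      have h1 := hok (Sum.inl x)
      rw [h] at h1
      exact h1.imp id Or.inl
    · intro x j h
      have h1 := hok (Sum.inl x)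
      rw [h] at h1
      exact Or.inr ⟨j, rfl, h1⟩
    · intro i y h
      have h1 := hok (Sum.inr i)
      rw [h] at h1
      exact Or.inl h1
    · intro i j h
      have h1 := hok (Sum.inr i)
      rw [h] at h1
      exact Or.inr ⟨j, rfl, h1⟩
  obtain ⟨π, I, h1, h2, h3⟩ := hlk
  refine ⟨π, I, h1, h2, fun i => ?_⟩
  have key : ∀ y, Relation.ReflTransGen (fun x y => a' x y ∧ (y ∈ I i ∨ y = t (π i))) (s i) y →
      (∃ z ∈ B (π i), Relation.ReflTransGen
        (fun x y => a x y ∧ (y ∈ I i ∨ y ∈ B (π i))) (s i) z) ∨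
      Relation.ReflTransGen (fun x y => a x y ∧ (y ∈ I i ∨ y ∈ B (π i))) (s i) y := by
    intro y hy
    induction hy with
    | refl => exact Or.inr Relation.ReflTransGen.refl
    | tail _ hs ih =>
      rcases ih with ih | ih
      · exact Or.inl ih
      · obtain ⟨h4, h5⟩ := hs
        rcases h5 with h5 | h5
        · right
          refine ih.tail ⟨?_, Or.inl h5⟩
          rcases h4 with h4 | ⟨j, h4, -⟩
          · exact h4
          · exact absurd (h1 i (h4 ▸ h5)) (htR j)
        · left
          rcases h4 with h4 | ⟨j, h4, z, hz, haz⟩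
          · exact ⟨_, h5 ▸ ht (π i), ih.tail ⟨h4, Or.inr (h5 ▸ ht (π i))⟩⟩
          · have h6 : j = π i := htinj (h4.symm.trans h5)
            subst h6
            exact ⟨z, hz, ih.tail ⟨haz, Or.inr hz⟩⟩
  rcases key _ (h3 i) with h | h
  · exact h
  · exact ⟨_, ht _, h⟩

end Pool.Agent.OSX47
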