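import Pool.Agent.OSX47.Twin
import Pool.Agent.OSX47.Link
import Pool.Agent.MDP.Robust
import Pool.Agent.MDP.ConnUnion
import Pool.Agent.MDP.Classes

/-! A router whose bags meet an inseparable set, attached to junk through a world: a subdivision. -/

open Classical

namespace Pool.Agent.OSX47

open Pool.Agent.Mader
open Pool.Agent.MDP (Adj2 robust conn_union conn_reach)
open Pool.Agent.OSX82 (rev)

universe u

private theorem rt_sdiff {W : Type u} {A B : Finset W} {i1 i2 : DecidableEq W} {b : W}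
    (h : b ∈ @SDiff.sdiff _ (@Finset.instSDiff W i1) A B) :
    b ∈ @SDiff.sdiff _ (@Finset.instSDiff W i2) A B := by
  have hi : i1 = i2 := Subsingleton.elim _ _
  subst hi
  exact h

/-- `N` different elements of a finset with at least `N` elements. -/
private theorem rt_pick {α : Type u} {X : Finset α} {N : ℕ} (h : N ≤ X.card) :
    ∃ g : Fin N → α, Function.Injective g ∧ ∀ i, g i ∈ X := by
  obtain ⟨T, hT, hTc⟩ := Finset.exists_subset_card_eq (s := X) (n := N) h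
  refine ⟨fun i => ((T.equivFin.symm (Fin.cast hTc.symm i) : T) : α), ?_, fun i =>
    hT (T.equivFin.symm (Fin.cast hTc.symm i)).2⟩
  intro i j hij
  exact Fin.cast_injective _ (T.equivFin.symm.injective (Subtype.ext hij))

private theorem rt_mono {α : Type u} {r p : α → α → Prop} (h : ∀ x y, r x y → p x y) {x y : α}
    (hxy : Relation.ReflTransGen r x y) : Relation.ReflTransGen p x y := by
  induction hxy with
  | refl => exact Relation.ReflTransGen.refl
  | tail _ h2 ih => exact ih.tail (h _ _ h2)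

/-- The number of disjoint sets which meet a set of `n` vertices. -/
private theorem rt_hit {V : Type u} {ℬ : Finset (Finset V)} {X : Finset V}
    (hdis : ∀ b ∈ ℬ, ∀ b' ∈ ℬ, b ≠ b' → Disjoint b b') :
    (ℬ.filter (fun b => ¬ Disjoint b X)).card ≤ X.card := by
  have h1 : ∀ b ∈ ℬ.filter (fun b => ¬ Disjoint b X), ∃ v ∈ X, v ∈ b := by
    intro b hb
    obtain ⟨v, hv, hv'⟩ := Finset.not_disjoint_iff.1 (Finset.mem_filter.1 hb).2
    exact ⟨v, hv', hv⟩
  by_cases hV : Nonempty V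
  · have : Nonempty V := hV
    choose! g hg hg' using h1
    refine Finset.card_le_card_of_injOn g (fun b hb => hg b hb) ?_
    intro b hb b' hb' he
    by_contra hne
    have h2 := hdis b (Finset.mem_filter.1 (Finset.mem_coe.1 hb)).1 b'
      (Finset.mem_filter.1 (Finset.mem_coe.1 hb')).1 hne
    exact Finset.disjoint_left.1 h2 (hg' b (Finset.mem_coe.1 hb))
      (he ▸ hg' b' (Finset.mem_coe.1 hb'))
  · rw [Finset.card_eq_zero.2]
    · exact Nat.zero_le _
    · rw [Finset.eq_empty_iff_forall_notMem]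
      intro b hb
      obtain ⟨v, -, -⟩ := h1 b hb
      exact hV ⟨v⟩

/-- The end of the proof: a dense two-way family `ℬ` of bags inside `U`, the branch vertices are
attached from themselves, the bags are attached to themselves through a world `Om ∪ Z` outside
`U`, and inside `U` no small set separates an unhit bag from a branch vertex.

Proof. (1) Bags which contain a branch vertex are thrown away (at most `n`); `robust` with
`2 * M` for the rest: `𝒯`. (2) `freeing_targets` in `S = U \ {x i}` with the targets `x (hd e)`: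
`F`, `B`, `z`, `I2`. (3) `M` further bags `B1`, `link_bags` from the sources `x (tl e)`: `π`,
`I1`. (4) the linkage of the pairs `B1 (π e), B e` inside `𝒯 \ F`: `D e`, `J e`.
`T e = I1 e ∪ J e ∪ I2 e`. -/
theorem router_end_of_link {V : Type u} {a : V → V → Prop} {n M N : ℕ}
    (hM : 1 ≤ M) {x : Fin n → V} (tl hd : Fin M → Fin n) {Om Z U : Finset V}
    (hOU : Disjoint Om U) (hZU : Disjoint Z U) (hZ : Z.card + 2 * M ≤ 2 * N + 1)
    (hxU : ∀ i, x i ∈ U) (hxo : ∀ i, AttB a Om Z N {x i})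
    {ℬ : Finset (Finset V)} (hne : ℬ.Nonempty) (hb : ∀ b ∈ ℬ, Conn a b ∧ b ⊆ U)
    (hdis : ∀ b ∈ ℬ, ∀ b' ∈ ℬ, b ≠ b' → Disjoint b b')
    (hdeg : ∀ b ∈ ℬ, 2 * (70 * (2 * M) + 1) + n ≤ deg (Adj2 a) ℬ b)
    (hbin : ∀ b ∈ ℬ, AttB (rev a) Om Z N b)
    (hlink : ∀ C : Finset V, C.card ≤ 3 * M + n → ∀ b ∈ ℬ, Disjoint b C → ∀ i, x i ∉ C →
      ∃ z ∈ b, Relation.ReflTransGen (fun x y => a x y ∧ y ∈ U ∧ y ∉ C) z (x i)) :
    ∃ T : Fin M → Finset V, (∀ e i, x i ∉ T e) ∧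
      (∀ e e', e ≠ e' → Disjoint (T e) (T e')) ∧
      ∀ e, Relation.ReflTransGen (fun u v => a u v ∧ (v ∈ T e ∨ v = x (hd e)))
        (x (tl e)) (x (hd e)) := by
  set Ix : Finset V := Finset.univ.image x with hIx
  have hIxc : Ix.card ≤ n := Finset.card_image_le.trans (by simp)
  have hmx : ∀ i, x i ∈ Ix := fun i => Finset.mem_image_of_mem x (Finset.mem_univ i)
  -- (1)
  have hhit := rt_hit (X := Ix) hdis
  set ℬ0 : Finset (Finset V) := ℬ.filter (fun b => Disjoint b Ix) with hℬ0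
  have hℬs : ℬ0 ⊆ ℬ := Finset.filter_subset _ _
  have hcov : ∀ X ⊆ ℬ, X.card ≤ (X.filter (fun b => b ∈ ℬ0)).card + n := by
    intro X hX
    have h1 : X ⊆ X.filter (fun b => b ∈ ℬ0) ∪ ℬ.filter (fun b => ¬ Disjoint b Ix) := by
      intro b hbX
      by_cases h2 : Disjoint b Ix
      · exact Finset.mem_union_left _ (Finset.mem_filter.2
          ⟨hbX, Finset.mem_filter.2 ⟨hX hbX, h2⟩⟩)
      · exact Finset.mem_union_right _ (Finset.mem_filter.2 ⟨hX hbX, h2⟩)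
    have h3 := (Finset.card_le_card h1).trans (Finset.card_union_le _ _)
    omega
  have hdeg0 : ∀ b ∈ ℬ0, 2 * (70 * (2 * M) + 1) ≤ deg (Adj2 a) ℬ0 b := by
    intro b hb0
    have h1 := hdeg b (hℬs hb0)
    have h2 := hcov (ℬ.filter (fun b' => Adj2 a b b')) (Finset.filter_subset _ _)
    have h3 : (ℬ.filter (fun b' => Adj2 a b b')).filter (fun b => b ∈ ℬ0) ⊆
        ℬ0.filter (fun b' => Adj2 a b b') := by
      intro b' hb'
      obtain ⟨h4, h5⟩ := Finset.mem_filter.1 hb'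
      exact Finset.mem_filter.2 ⟨h5, (Finset.mem_filter.1 h4).2⟩
    have h4 := Finset.card_le_card h3
    have h5 : deg (Adj2 a) ℬ b = (ℬ.filter (fun b' => Adj2 a b b')).card := rfl
    have h6 : deg (Adj2 a) ℬ0 b = (ℬ0.filter (fun b' => Adj2 a b b')).card := rfl
    omega
  have hne0 : ℬ0.Nonempty := by
    obtain ⟨b, hb1⟩ := hne
    have h1 := hdeg b hb1
    have h2 : deg (Adj2 a) ℬ b ≤ ℬ.card := Finset.card_le_card (Finset.filter_subset _ _)
    have h3 := hcov ℬ (Finset.Subset.refl _)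
    have h4 : 0 < (ℬ.filter (fun b => b ∈ ℬ0)).card := by omega
    obtain ⟨b', hb'⟩ := Finset.card_pos.1 h4
    exact ⟨b', (Finset.mem_filter.1 hb').2⟩
  obtain ⟨𝒯, h𝒯, h𝒯ne, h𝒯deg, h𝒯link⟩ := robust (r := Adj2 a) Adj2.symm Adj2.irrefl hne0
    (M := 2 * M) (by omega) hdeg0
  have hTℬ : ∀ b ∈ 𝒯, b ∈ ℬ := fun b hb1 => hℬs (h𝒯 hb1)
  have hbU : ∀ b ∈ 𝒯, ∀ v ∈ b, v ∈ U ∧ v ∉ Ix := fun b hb1 v hv =>
    ⟨(hb b (hTℬ b hb1)).2 hv, Finset.disjoint_left.1 (Finset.mem_filter.1 (h𝒯 hb1)).2 hv⟩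
  have hbC : ∀ b ∈ 𝒯, Conn a b := fun b hb1 => (hb b (hTℬ b hb1)).1
  have hdis' : ∀ b ∈ 𝒯, ∀ b' ∈ 𝒯, b ≠ b' → Disjoint b b' := fun b hb1 b' hb2 =>
    hdis b (hTℬ b hb1) b' (hTℬ b' hb2)
  set S : Finset V := U \ Ix with hS
  -- (2)
  obtain ⟨F, hFT, hFc, B, z, I2, hBi, hB, hI2, hI2d, hI2w⟩ := freeing_targets (S := S) (M := M)
    h𝒯ne (fun b hb1 => ⟨hbC b hb1, fun v hv => Finset.mem_sdiff.2 (hbU b hb1 v hv)⟩) hdis' (by
      intro b hb1
      have h1 := h𝒯deg b hb1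
      have h2 : deg (Adj2 a) 𝒯 b ≤
          (𝒯.filter (fun b' => b' ≠ b ∧ ∃ x ∈ b', ∃ y ∈ b, a x y)).card := by
        apply Finset.card_le_card
        intro b' hb'
        rw [Finset.mem_filter] at hb' ⊢
        exact ⟨hb'.1, hb'.2.1.symm, hb'.2.2.2⟩
      omega) (fun e => x (hd e)) (by
      intro C hC b hb1 hbd e
      set y : V := x (hd e) with hy
      obtain ⟨v, hvb, h1⟩ := hlink ((C ∪ Ix).erase y) (by
        have h2 := Finset.card_union_le C Ix
        have h3 := Finset.card_erase_le (s := C ∪ Ix) (a := y)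
        omega) b (hTℬ b hb1) (by
        rw [Finset.disjoint_left]
        intro v hvb h
        rcases Finset.mem_union.1 (Finset.mem_of_mem_erase h) with h2 | h2
        · exact Finset.disjoint_left.1 hbd hvb h2
        · exact (hbU b hb1 v hvb).2 h2) (hd e) (Finset.notMem_erase _ _)
      have hvS := hbU b hb1 v hvb
      have hvy : v ≠ y := fun h => hvS.2 (h ▸ hmx _)
      refine ⟨v, hvb, ?_⟩
      have key : ∀ p, Relation.ReflTransGen
          (fun x z => a x z ∧ z ∈ U ∧ z ∉ (C ∪ Ix).erase y) v p →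
          (∃ w, Relation.ReflTransGen (fun x z => a x z ∧ z ∈ S ∧ z ∉ C) v w ∧ a w y) ∨
          (Relation.ReflTransGen (fun x z => a x z ∧ z ∈ S ∧ z ∉ C) v p ∧ p ≠ y) := by
        intro p hp
        induction hp with
        | refl => exact Or.inr ⟨Relation.ReflTransGen.refl, hvy⟩
        | @tail p p' _ hs ih =>
          rcases ih with ih | ⟨ih, -⟩
          · exact Or.inl ih
          · obtain ⟨h3, h4, h5⟩ := hs
            by_cases hpy : p' = y
            · exact Or.inl ⟨p, ih, hpy ▸ h3⟩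
            · have h6 : p' ∉ C ∪ Ix := fun h => h5 (Finset.mem_erase.2 ⟨hpy, h⟩)
              rw [Finset.mem_union, not_or] at h6
              exact Or.inr ⟨ih.tail ⟨h3, Finset.mem_sdiff.2 ⟨h4, h6.2⟩, h6.1⟩, hpy⟩
      rcases key y h1 with h2 | h2
      · exact h2
      · exact absurd rfl h2.2)
  -- (3)
  have h𝒯card : 140 * M + 1 < 𝒯.card := by
    obtain ⟨b, hb1⟩ := h𝒯ne
    have h1 := h𝒯deg b hb1
    have h2 : deg (Adj2 a) 𝒯 b ≤ 𝒯.card := Finset.card_le_card (Finset.filter_subset _ _)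
    omega
  set IB : Finset (Finset V) := Finset.univ.image B with hIB
  have hIBc : IB.card ≤ M := Finset.card_image_le.trans (by simp)
  obtain ⟨B1, hB1i, hB1⟩ := rt_pick (X := 𝒯 \ (F ∪ IB)) (N := M) (by
    have h1 := Finset.le_card_sdiff (F ∪ IB) 𝒯
    have h2 := Finset.card_union_le F IB
    omega)
  have hB1T : ∀ k, B1 k ∈ 𝒯 := fun k => (Finset.mem_sdiff.1 (hB1 k)).1
  have hB1F : ∀ k, B1 k ∉ F := fun k hc =>
    (Finset.mem_sdiff.1 (hB1 k)).2 (Finset.mem_union_left _ hc)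
  have hB1B : ∀ k e, B e ≠ B1 k := fun k e hc =>
    (Finset.mem_sdiff.1 (hB1 k)).2 (Finset.mem_union_right _
      (hc ▸ Finset.mem_image_of_mem B (Finset.mem_univ e)))
  have hOZ : ∀ v ∈ Om ∪ Z, v ∉ U := by
    intro v hv hvU
    rcases Finset.mem_union.1 hv with h | h
    · exact Finset.disjoint_left.1 hOU h hvU
    · exact Finset.disjoint_left.1 hZU h hvU
  obtain ⟨π, I1, hI1, hI1d, hI1w⟩ := link_bags (a := a) (s := fun e => x (tl e)) (B := B1) hZ
    (fun k => (hbC _ (hB1T k)).1) (fun k => by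
      rw [Finset.disjoint_left]
      intro v hv hv'
      exact hOZ v hv' (hbU _ (hB1T k) v hv).1)
    (fun k l hkl => hdis' _ (hB1T k) _ (hB1T l) (fun h => hkl (hB1i h)))
    (fun e => hxo (tl e)) (fun k => hbin _ (hTℬ _ (hB1T k)))
  choose z1 hz1 hI1w using hI1w
  -- (4)
  have huniq : ∀ b e e', (b = B e ∨ b = B1 (π e)) → (b = B e' ∨ b = B1 (π e')) → e = e' := by
    rintro b e e' (h1 | h1) (h2 | h2)
    · exact hBi (h1.symm.trans h2)
    · exact absurd (h1.symm.trans h2) (hB1B _ _)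
    · exact absurd (h2.symm.trans h1) (hB1B _ _)
    · exact π.injective (hB1i (h1.symm.trans h2))
  obtain ⟨c, hc⟩ : ∃ c : Finset V → ULift.{u} (Fin M),
      ∀ e, c (B e) = ⟨e⟩ ∧ c (B1 (π e)) = ⟨e⟩ := by
    refine ⟨fun b => if hb : ∃ e, b = B e ∨ b = B1 (π e) then ⟨hb.choose⟩ else ⟨⟨0, hM⟩⟩, ?_⟩
    have key : ∀ b e, (b = B e ∨ b = B1 (π e)) →
        (if hb : ∃ e, b = B e ∨ b = B1 (π e) then (⟨hb.choose⟩ : ULift.{u} (Fin M))
          else ⟨⟨0, hM⟩⟩) = ⟨e⟩ := by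
      intro b e hb
      have hex : ∃ e, b = B e ∨ b = B1 (π e) := ⟨e, hb⟩
      rw [dif_pos hex]
      have h1 := huniq b _ _ hex.choose_spec hb
      rw [h1]
    exact fun e => ⟨key _ e (Or.inl rfl), key _ e (Or.inr rfl)⟩
  obtain ⟨C, hC1, hC2⟩ := h𝒯link F (IB ∪ Finset.univ.image B1) hFT (by
    intro b hb
    rcases Finset.mem_union.1 hb with hb | hb
    · obtain ⟨i, _, rfl⟩ := Finset.mem_image.1 hb
      exact (hB i).1
    · obtain ⟨i, _, rfl⟩ := Finset.mem_image.1 hb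
      exact hB1T i) (by
    rw [Finset.disjoint_left]
    intro b hbF hb
    rcases Finset.mem_union.1 hb with hb | hb
    · obtain ⟨i, _, rfl⟩ := Finset.mem_image.1 hb
      exact (hB i).2.1 hbF
    · obtain ⟨i, _, rfl⟩ := Finset.mem_image.1 hb
      exact hB1F i hbF) (by
    have h1 := Finset.card_union_le IB (Finset.univ.image B1)
    have h2 : (Finset.univ.image B1).card ≤ M := Finset.card_image_le.trans (by simp)
    omega) (ULift.{u} (Fin M)) c
  have hmB : ∀ e, B e ∈ IB ∪ Finset.univ.image B1 := fun e =>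
    Finset.mem_union_left _ (Finset.mem_image_of_mem B (Finset.mem_univ e))
  have hmB1 : ∀ k, B1 k ∈ IB ∪ Finset.univ.image B1 := fun k =>
    Finset.mem_union_right _ (Finset.mem_image_of_mem B1 (Finset.mem_univ k))
  set D : Fin M → Finset (Finset V) := fun e => C ⟨e⟩ with hD
  have hDB : ∀ e, B e ∈ D e ∧ D e ⊆ 𝒯 \ F ∧ Conn (Adj2 a) (D e) := by
    intro e
    have h1 := hC1 (B e) (hmB e)
    rw [(hc e).1] at h1
    refine ⟨h1.1, fun b hb => ?_, h1.2.2⟩
    have h3 := h1.2.1 hb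
    exact rt_sdiff h3
  have hDB1 : ∀ e, B1 (π e) ∈ D e := by
    intro e
    have h1 := (hC1 (B1 (π e)) (hmB1 _)).1
    rw [(hc e).2] at h1
    exact h1
  have hDd : ∀ e e', e ≠ e' → Disjoint (D e) (D e') := by
    intro e e' hne
    have h1 := hC2 (B e) (hmB e) (B e') (hmB e') (by
      rw [(hc e).1, (hc e').1]
      intro h2
      exact hne (congrArg ULift.down h2))
    rw [(hc e).1, (hc e').1] at h1
    exact h1
  set J : Fin M → Finset V := fun e => (D e).biUnion id with hJ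
  have hJm : ∀ e v, v ∈ J e → ∃ b ∈ D e, v ∈ b := by
    intro e v hv
    obtain ⟨b, hb, hvb⟩ := Finset.mem_biUnion.1 hv
    exact ⟨b, hb, hvb⟩
  have hJm' : ∀ e v b, b ∈ D e → v ∈ b → v ∈ J e := fun e v b hb hv =>
    Finset.mem_biUnion.2 ⟨b, hb, hv⟩
  have hDT : ∀ e, ∀ b ∈ D e, b ∈ 𝒯 ∧ b ∉ F := fun e b hb =>
    Finset.mem_sdiff.1 ((hDB e).2.1 hb)
  have hJc : ∀ e, Conn a (J e) := fun e =>
    conn_union (hDB e).2.2 (fun b hb => hbC b (hDT e b hb).1)
  have hJU : ∀ e, ∀ v ∈ J e, v ∈ U ∧ v ∉ Ix := by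
    intro e v hv
    obtain ⟨b, hb, hvb⟩ := hJm e v hv
    exact hbU b (hDT e b hb).1 v hvb
  have hJd : ∀ e e', e ≠ e' → ∀ v, v ∈ J e → v ∉ J e' := by
    intro e e' hne v hv hv'
    obtain ⟨b, hb, hvb⟩ := hJm e v hv
    obtain ⟨b', hb', hvb'⟩ := hJm e' v hv'
    by_cases hbb : b = b'
    · subst hbb
      exact Finset.disjoint_left.1 (hDd e e' hne) hb hb'
    · exact Finset.disjoint_left.1 (hdis' b (hDT e b hb).1 b' (hDT e' b' hb').1 hbb) hvb hvb'
  have hJI : ∀ e e' v, v ∈ J e → v ∉ I2 e' := by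
    intro e e' v hv hv'
    obtain ⟨b, hb, hvb⟩ := hJm e v hv
    exact Finset.disjoint_left.1 ((hI2 e').2 b (hDT e b hb).1 (hDT e b hb).2) hv' hvb
  have hI2S : ∀ e, ∀ v ∈ I2 e, v ∈ U ∧ v ∉ Ix := fun e v hv =>
    Finset.mem_sdiff.1 ((hI2 e).1 hv)
  have hI1Y : ∀ e, ∀ v ∈ I1 e, v ∉ U := fun e v hv => hOZ v (hI1 e hv)
  have hTm : ∀ e v, v ∈ (I1 e ∪ (J e ∪ I2 e) : Finset V) ↔
      v ∈ I1 e ∨ v ∈ J e ∨ v ∈ I2 e := by
    intro e v
    simp only [Finset.mem_union]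
  refine ⟨fun e => I1 e ∪ (J e ∪ I2 e), ?_, ?_, ?_⟩
  · intro e i hc
    rcases (hTm e _).1 hc with h1 | h1 | h1
    · exact hI1Y e _ h1 (hxU i)
    · exact (hJU e _ h1).2 (hmx i)
    · exact (hI2S e _ h1).2 (hmx i)
  · intro e e' hne
    rw [Finset.disjoint_left]
    intro v hv hv'
    rcases (hTm e v).1 hv with h1 | h1 | h1 <;>
      rcases (hTm e' v).1 hv' with h2 | h2 | h2
    · exact Finset.disjoint_left.1 (hI1d e e' hne) h1 h2
    · exact hI1Y e v h1 (hJU e' v h2).1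
    · exact hI1Y e v h1 (hI2S e' v h2).1
    · exact hI1Y e' v h2 (hJU e v h1).1
    · exact hJd e e' hne v h1 h2
    · exact hJI e e' v h1 h2
    · exact hI1Y e' v h2 (hI2S e v h1).1
    · exact hJI e' e v h2 h1
    · exact Finset.disjoint_left.1 (hI2d e e' hne) h1 h2
  · intro e
    have w2 : Relation.ReflTransGen (fun u v => a u v ∧
        (v ∈ (I1 e ∪ (J e ∪ I2 e) : Finset V) ∨ v = x (hd e))) (x (tl e)) (z1 e) := by
      refine rt_mono ?_ (hI1w e)
      rintro p q ⟨hpq, h1⟩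
      refine ⟨hpq, Or.inl ((hTm e _).2 ?_)⟩
      rcases h1 with h1 | h1
      · exact Or.inl h1
      · exact Or.inr (Or.inl (hJm' e _ _ (hDB1 e) h1))
    have w3 : Relation.ReflTransGen (fun u v => a u v ∧
        (v ∈ (I1 e ∪ (J e ∪ I2 e) : Finset V) ∨ v = x (hd e))) (z1 e) (z e) :=
      rt_mono (fun p q hpq =>
        ⟨hpq.1, Or.inl ((hTm e _).2 (Or.inr (Or.inl hpq.2.2)))⟩)
        (conn_reach (hJc e) (hJm' e _ _ (hDB1 e) (hz1 e)) (hJm' e _ _ (hDB e).1 (hB e).2.2))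
    have w4 : Relation.ReflTransGen (fun u v => a u v ∧
        (v ∈ (I1 e ∪ (J e ∪ I2 e) : Finset V) ∨ v = x (hd e))) (z e) (x (hd e)) :=
      rt_mono (fun p q hpq =>
        ⟨hpq.1, hpq.2.imp (fun h => (hTm e _).2 (Or.inr (Or.inr h))) id⟩) (hI2w e)
    exact (w2.trans w3).trans w4

/-- The end of the proof in one blob: the bags meet a set `K` which is inseparable in `U` and
contains the branch vertices. -/
theorem router_end {V : Type u} {a : V → V → Prop} {n M N : ℕ}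
    (hM : 1 ≤ M) {x : Fin n → V} (tl hd : Fin M → Fin n) {Om Z U K : Finset V}
    (hOU : Disjoint Om U) (hZU : Disjoint Z U) (hZ : Z.card + 2 * M ≤ 2 * N + 1)
    (hxU : ∀ i, x i ∈ U) (hxo : ∀ i, AttB a Om Z N {x i})
    {ℬ : Finset (Finset V)} (hne : ℬ.Nonempty) (hb : ∀ b ∈ ℬ, Conn a b ∧ b ⊆ U)
    (hdis : ∀ b ∈ ℬ, ∀ b' ∈ ℬ, b ≠ b' → Disjoint b b')
    (hdeg : ∀ b ∈ ℬ, 2 * (70 * (2 * M) + 1) + n ≤ deg (Adj2 a) ℬ b)
    (hbin : ∀ b ∈ ℬ, AttB (rev a) Om Z N b)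
    (hxK : ∀ i, x i ∈ K) (hbK : ∀ b ∈ ℬ, ∃ z ∈ b, z ∈ K)
    (hins : ∀ C : Finset V, C.card ≤ 3 * M + n → ∀ u ∈ K, u ∉ C → ∀ v ∈ K, v ∉ C →
      Relation.ReflTransGen (fun x y => a x y ∧ y ∈ U ∧ y ∉ C) u v) :
    ∃ T : Fin M → Finset V, (∀ e i, x i ∉ T e) ∧
      (∀ e e', e ≠ e' → Disjoint (T e) (T e')) ∧
      ∀ e, Relation.ReflTransGen (fun u v => a u v ∧ (v ∈ T e ∨ v = x (hd e)))
        (x (tl e)) (x (hd e)) := by
  refine router_end_of_link hM tl hd hOU hZU hZ hxU hxo hne hb hdis hdeg hbin ?_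
  intro C hC b hbℬ hbC i hi
  obtain ⟨z, hz, hzK⟩ := hbK b hbℬ
  exact ⟨z, hz, hins C hC z hzK (Finset.disjoint_left.1 hbC hz) (x i) (hxK i) hi⟩

/-- The end of the proof with the two directions exchanged: the branch vertices are attached to
themselves, the bags from themselves, and inside `U` no small set separates a branch vertex from
an unhit bag. -/
theorem router_end_rev {V : Type u} {a : V → V → Prop} {n M N : ℕ}
    (hM : 1 ≤ M) {x : Fin n → V} (tl hd : Fin M → Fin n) {Om Z U : Finset V}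
    (hOU : Disjoint Om U) (hZU : Disjoint Z U) (hZ : Z.card + 2 * M ≤ 2 * N + 1)
    (hxU : ∀ i, x i ∈ U) (hxi : ∀ i, AttB (rev a) Om Z N {x i})
    {ℬ : Finset (Finset V)} (hne : ℬ.Nonempty) (hb : ∀ b ∈ ℬ, Conn (rev a) b ∧ b ⊆ U)
    (hdis : ∀ b ∈ ℬ, ∀ b' ∈ ℬ, b ≠ b' → Disjoint b b')
    (hdeg : ∀ b ∈ ℬ, 2 * (70 * (2 * M) + 1) + n ≤ deg (Adj2 (rev a)) ℬ b)
    (hbo : ∀ b ∈ ℬ, AttB a Om Z N b)
    (hlink : ∀ C : Finset V, C.card ≤ 3 * M + n → ∀ b ∈ ℬ, Disjoint b C → ∀ i, x i ∉ C →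
      ∃ z ∈ b, Relation.ReflTransGen (fun x y => rev a x y ∧ y ∈ U ∧ y ∉ C) z (x i)) :
    ∃ T : Fin M → Finset V, (∀ e i, x i ∉ T e) ∧
      (∀ e e', e ≠ e' → Disjoint (T e) (T e')) ∧
      ∀ e, Relation.ReflTransGen (fun u v => a u v ∧ (v ∈ T e ∨ v = x (hd e)))
        (x (tl e)) (x (hd e)) := by
  obtain ⟨T, h1, h2, h3⟩ := router_end_of_link (a := rev a) hM hd tl hOU hZU hZ hxU hxi hne hb
    hdis hdeg hbo hlink
  refine ⟨T, h1, h2, fun e => ?_⟩
  have key : ∀ y, Relation.ReflTransGen (fun u v => rev a u v ∧ (v ∈ T e ∨ v = x (tl e)))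
      (x (hd e)) y →
      Relation.ReflTransGen (fun u v => a u v ∧ (v ∈ T e ∨ v = x (hd e)))
        (x (tl e)) (x (hd e)) ∨
      (Relation.ReflTransGen (fun u v => a u v ∧ (v ∈ T e ∨ v = x (hd e))) y (x (hd e)) ∧
        (y ∈ T e ∨ y = x (hd e))) := by
    intro y hy
    induction hy with
    | refl => exact Or.inr ⟨Relation.ReflTransGen.refl, Or.inr rfl⟩
    | @tail p q _ hs ih =>
      rcases ih with ih | ⟨ih, hp⟩
      · exact Or.inl ih
      · have h4 : Relation.ReflTransGen (fun u v => a u v ∧ (v ∈ T e ∨ v = x (hd e))) q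
            (x (hd e)) := Relation.ReflTransGen.head ⟨hs.1, hp⟩ ih
        rcases hs.2 with h5 | h5
        · exact Or.inr ⟨h4, Or.inl h5⟩
        · subst h5
          exact Or.inl h4
  rcases key _ (h3 e) with h | h
  · exact h
  · exact h.1

end Pool.Agent.OSX47
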