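import Pool.Agent.OSX47.Free

/-! Freeing with arbitrary targets outside the set: the targets need not be different (each of
them is replaced by its own copy). -/

open Classical

namespace Pool.Agent.OSX47

open Pool.Agent.Mader

universe u

variable {V : Type u}

/-- The relation with a copy of the target `t e` for each `e`. -/
def twin (a : V → V → Prop) {M : ℕ} (t : Fin M → V) : V ⊕ ULift.{u} (Fin M) →
    V ⊕ ULift.{u} (Fin M) → Prop
  | Sum.inl x, Sum.inl y => a x y
  | Sum.inl x, Sum.inr e => a x (t e.down)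
  | Sum.inr _, _ => False

private theorem tw_conn {a : V → V → Prop} {M : ℕ} {t : Fin M → V} {b : Finset V}
    (h : Conn a b) : Conn (twin a t) (b.map Function.Embedding.inl) := by
  refine ⟨h.1.map, ?_⟩
  intro Z hZ hne hneq
  have hZl : ∀ z ∈ Z, ∃ v ∈ b, z = Sum.inl v := by
    intro z hz
    obtain ⟨v, hv, rfl⟩ := Finset.mem_map.1 (hZ hz)
    exact ⟨v, hv, rfl⟩
  obtain ⟨u, hu, v, hv, hvZ, huv⟩ := h.2 (b.filter (fun v => Sum.inl v ∈ Z))
    (Finset.filter_subset _ _) (by
      obtain ⟨z, hz⟩ := hne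
      obtain ⟨v, hv, rfl⟩ := hZl z hz
      exact ⟨v, Finset.mem_filter.2 ⟨hv, hz⟩⟩) (by
      intro he
      apply hneq
      apply Finset.Subset.antisymm hZ
      intro z hz
      obtain ⟨v, hv, rfl⟩ := Finset.mem_map.1 hz
      rw [← he] at hv
      exact (Finset.mem_filter.1 hv).2)
  refine ⟨Sum.inl u, (Finset.mem_filter.1 hu).2, Sum.inl v, Finset.mem_map.2 ⟨v, hv, rfl⟩, ?_, huv⟩
  intro hc
  exact hvZ (Finset.mem_filter.2 ⟨hv, hc⟩)

private theorem tw_inj {M : ℕ} : Function.Injective (fun b : Finset V =>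
    (b.map Function.Embedding.inl : Finset (V ⊕ ULift.{u} (Fin M)))) := by
  intro b b' h
  exact Finset.map_injective _ h

/-- Freeing with targets `t e` outside `S` which need not be different.

Proof. `freeing` for the relation `twin a t` on `V ⊕ Fin M`, with the targets `inr e`. -/
theorem freeing_targets {a : V → V → Prop} {S : Finset V} {M : ℕ} {ℬ : Finset (Finset V)}
    (hne : ℬ.Nonempty) (hb : ∀ b ∈ ℬ, Conn a b ∧ b ⊆ S)
    (hdis : ∀ b ∈ ℬ, ∀ b' ∈ ℬ, b ≠ b' → Disjoint b b')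
    (hdeg : ∀ b ∈ ℬ, 3 * M ≤ (ℬ.filter (fun b' => b' ≠ b ∧ ∃ x ∈ b', ∃ y ∈ b, a x y)).card)
    (t : Fin M → V)
    (hlink : ∀ C : Finset V, C.card ≤ 3 * M → ∀ b ∈ ℬ, Disjoint b C → ∀ i, ∃ z ∈ b, ∃ w,
      Relation.ReflTransGen (fun x y => a x y ∧ y ∈ S ∧ y ∉ C) z w ∧ a w (t i)) :
    ∃ F ⊆ ℬ, F.card ≤ 2 * M ∧ ∃ (B : Fin M → Finset V) (z : Fin M → V) (I : Fin M → Finset V),
      Function.Injective B ∧ (∀ i, B i ∈ ℬ ∧ B i ∉ F ∧ z i ∈ B i) ∧
      (∀ i, I i ⊆ S ∧ ∀ b ∈ ℬ, b ∉ F → Disjoint (I i) b) ∧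
      (∀ i j, i ≠ j → Disjoint (I i) (I j)) ∧
      ∀ i, Relation.ReflTransGen (fun x y => a x y ∧ (y ∈ I i ∨ y = t i)) (z i) (t i) := by
  set e : Finset V ↪ Finset (V ⊕ ULift.{u} (Fin M)) :=
    ⟨fun b => b.map Function.Embedding.inl, tw_inj⟩ with he
  have hem : ∀ b v, Sum.inl v ∈ e b ↔ v ∈ b := by
    intro b v
    change Sum.inl v ∈ b.map Function.Embedding.inl ↔ v ∈ b
    rw [Finset.mem_map]
    constructor
    · rintro ⟨w, hw, hwv⟩
      have := Sum.inl.inj hwv
      exact this ▸ hw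
    · exact fun h => ⟨v, h, rfl⟩
  have her : ∀ b i, Sum.inr i ∉ e b := by
    intro b i h
    obtain ⟨w, _, hw⟩ := Finset.mem_map.1 h
    exact absurd hw (by simp [Function.Embedding.inl])
  set ℬ' : Finset (Finset (V ⊕ ULift.{u} (Fin M))) := ℬ.map e with hℬ'
  have hℬm : ∀ b ∈ ℬ, e b ∈ ℬ' := fun b hb => Finset.mem_map_of_mem e hb
  set S' : Finset (V ⊕ ULift.{u} (Fin M)) := S.disjSum Finset.univ with hS'
  have hSl : ∀ v, Sum.inl v ∈ S' ↔ v ∈ S := fun v => Finset.inl_mem_disjSum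
  have hSr : ∀ i, Sum.inr i ∈ S' := fun i => Finset.inr_mem_disjSum.2 (Finset.mem_univ i)
  obtain ⟨F', hF', hF'c, B', z', I', hB'i, hB', hI', hI'd, hI'w⟩ := freeing (a := twin a t)
    (S := S') (N := M) (ℬ := ℬ') (f := fun i => Sum.inr ⟨i⟩) (hne.map) (by
      intro b' hb'
      obtain ⟨b, hb1, rfl⟩ := Finset.mem_map.1 hb'
      refine ⟨tw_conn (hb b hb1).1, ?_⟩
      rintro (v | i) hv
      · exact (hSl v).2 ((hb b hb1).2 ((hem b v).1 hv))
      · exact hSr i) (by
      intro b' hb' c' hc' hne'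
      obtain ⟨b, hb1, rfl⟩ := Finset.mem_map.1 hb'
      obtain ⟨c, hc1, rfl⟩ := Finset.mem_map.1 hc'
      have h1 := hdis b hb1 c hc1 (fun h => hne' (by rw [h]))
      rw [Finset.disjoint_left]
      rintro (v | i) hv hv'
      · exact Finset.disjoint_left.1 h1 ((hem b v).1 hv) ((hem c v).1 hv')
      · exact her b i hv) (by
      intro b' hb'
      obtain ⟨b, hb1, rfl⟩ := Finset.mem_map.1 hb'
      refine (hdeg b hb1).trans ?_
      rw [← Finset.card_map e]
      apply Finset.card_le_card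
      intro c' hc'
      obtain ⟨c, hc, rfl⟩ := Finset.mem_map.1 hc'
      obtain ⟨hc1, hc2, x, hx, y, hy, hxy⟩ := Finset.mem_filter.1 hc
      refine (@Finset.mem_filter _ _ (_) _ _).2 ⟨hℬm c hc1, fun h => hc2 (e.injective h),
        Sum.inl x, (hem c x).2 hx, Sum.inl y, (hem b y).2 hy, hxy⟩) (by
      intro i j hij
      exact congrArg ULift.down (Sum.inr.inj hij)) (fun i => hSr _) (by
      intro i b' hb' hc
      obtain ⟨b, hb1, rfl⟩ := Finset.mem_map.1 hb'
      exact her b _ hc) (by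
      intro C' hC' b' hb' hdC i hiC
      obtain ⟨b, hb1, rfl⟩ := Finset.mem_map.1 hb'
      obtain ⟨z, hz, w, hzw, hw⟩ := hlink C'.toLeft (by
        have h1 : C'.toLeft.card + C'.toRight.card = C'.card :=
          Finset.card_toLeft_add_card_toRight
        omega) b hb1 (by
        rw [Finset.disjoint_left]
        intro v hv hv'
        exact Finset.disjoint_left.1 hdC ((hem b v).2 hv) (Finset.mem_toLeft.1 hv')) i
      refine ⟨Sum.inl z, (hem b z).2 hz, Relation.ReflTransGen.tail (b := Sum.inl w) ?_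
        ⟨hw, hSr _, hiC⟩⟩
      clear hw
      induction hzw with
      | refl => exact Relation.ReflTransGen.refl
      | tail _ hs ih =>
        exact ih.tail ⟨hs.1, (hSl _).2 hs.2.1, fun h4 => hs.2.2 (Finset.mem_toLeft.2 h4)⟩)
  have hB1 : ∀ i, ∃ b ∈ ℬ, e b = B' i := fun i => Finset.mem_map.1 (hB' i).1
  choose B hB hBe using hB1
  have hz1 : ∀ i, ∃ z ∈ B i, Sum.inl z = z' i := by
    intro i
    have h1 := (hB' i).2.2
    rw [← hBe i] at h1
    obtain ⟨v, hv, hv'⟩ := Finset.mem_map.1 h1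
    exact ⟨v, hv, hv'⟩
  choose z hz hze using hz1
  refine ⟨ℬ.filter (fun b => e b ∈ F'), Finset.filter_subset _ _, ?_, B, z,
    fun i => (I' i).toLeft, ?_, ?_, ?_, ?_, ?_⟩
  · refine le_trans ?_ hF'c
    rw [← Finset.card_map e]
    apply Finset.card_le_card
    intro c' hc'
    obtain ⟨c, hc, rfl⟩ := Finset.mem_map.1 hc'
    exact (Finset.mem_filter.1 hc).2
  · intro i j hij
    apply hB'i
    rw [← hBe i, ← hBe j, hij]
  · intro i
    refine ⟨hB i, fun h => ?_, hz i⟩
    have h1 := (Finset.mem_filter.1 h).2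
    rw [hBe i] at h1
    exact (hB' i).2.1 h1
  · intro i
    refine ⟨fun v hv => (hSl v).1 ((hI' i).1 (Finset.mem_toLeft.1 hv)), fun b hb1 hbF => ?_⟩
    rw [Finset.disjoint_left]
    intro v hv hvb
    exact Finset.disjoint_left.1 ((hI' i).2.2 (e b) (hℬm b hb1)
      (fun h => hbF (Finset.mem_filter.2 ⟨hb1, h⟩))) (Finset.mem_toLeft.1 hv) ((hem b v).2 hvb)
  · intro i j hij
    rw [Finset.disjoint_left]
    intro v hv hv'
    exact Finset.disjoint_left.1 (hI'd i j hij) (Finset.mem_toLeft.1 hv) (Finset.mem_toLeft.1 hv')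
  · intro i
    have key : ∀ y, Relation.ReflTransGen (fun x y => twin a t x y ∧ y ∈ I' i) (z' i) y →
        (∀ v, y = Sum.inl v → Relation.ReflTransGen
          (fun x y => a x y ∧ (y ∈ (I' i).toLeft ∨ y = t i)) (z i) v) ∧
        (∀ j, y = Sum.inr j → Relation.ReflTransGen
          (fun x y => a x y ∧ (y ∈ (I' i).toLeft ∨ y = t i)) (z i) (t i)) := by
      intro y hy
      induction hy with
      | refl =>
        refine ⟨fun v hv => ?_, fun j hj => ?_⟩
        · rw [← hze i] at hv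
          rw [Sum.inl.inj hv]
        · rw [← hze i] at hj
          exact absurd hj (by simp)
      | @tail p q _ hs ih =>
        obtain ⟨h1, h2⟩ := hs
        rcases p with p | p
        · have h3 := ih.1 p rfl
          refine ⟨?_, ?_⟩
          · rintro v rfl
            exact h3.tail ⟨h1, Or.inl (Finset.mem_toLeft.2 h2)⟩
          · rintro j rfl
            have hji : j.down = i := by
              by_contra hne'
              exact Finset.disjoint_left.1 (hI'd j.down i hne') ((hI' j.down).2.1) h2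
            have h4 : a p (t j.down) := h1
            rw [hji] at h4
            exact h3.tail ⟨h4, Or.inr rfl⟩
        · exact absurd h1 (by simp [twin])
    exact (key _ (hI'w i)).2 ⟨i⟩ rfl

end Pool.Agent.OSX47
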